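import Pool.Agent.Q72.EG.Stm

/-!
# Project EG: SEP, an integral vector which separates a point from finitely many others
-/

set_option autoImplicit false

namespace Pool.Agent.Q111.EG

open Pool.Agent.Q72.EG

/-- the polynomial with the coefficients `d l` -/
noncomputable def pol {n : ℕ} (d : Fin n → ℝ) : Polynomial ℝ :=
  ∑ l : Fin n, Polynomial.C (d l) * Polynomial.X ^ (l : ℕ)

lemma pol_coeff {n : ℕ} (d : Fin n → ℝ) (l : Fin n) : (pol d).coeff l = d l := by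
  unfold pol
  rw [Polynomial.finsetSum_coeff, Finset.sum_eq_single l]
  · rw [Polynomial.coeff_C_mul_X_pow, if_pos rfl]
  · intro b _ hb
    rw [Polynomial.coeff_C_mul_X_pow, if_neg fun h => hb (Fin.ext h.symm)]
  · intro h
    exact absurd (Finset.mem_univ l) h

lemma pol_ne {n : ℕ} (d : Fin n → ℝ) (hd : d ≠ 0) : pol d ≠ 0 := by
  intro h
  apply hd
  funext l
  rw [← pol_coeff d l, h]
  simp

lemma pol_eval {n : ℕ} (d : Fin n → ℝ) (t : ℝ) : (pol d).eval t = ∑ l : Fin n, d l * t ^ (l : ℕ) := by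
  unfold pol
  rw [Polynomial.eval_finsetSum]
  simp

theorem sep : S_sep := by
  intro n S a hS
  have h1 : (⋃ σ ∈ S \ {a}, {t : ℝ | (pol (σ - a)).IsRoot t}).Finite := by
    refine (hS.subset Set.sdiff_subset).biUnion fun σ hσ => ?_
    exact Polynomial.finite_setOfPred_isRoot (pol_ne _ (sub_ne_zero.2 hσ.2))
  have h2 : {t : ℕ | (t : ℝ) ∈ ⋃ σ ∈ S \ {a}, {t : ℝ | (pol (σ - a)).IsRoot t}}.Finite :=
    h1.preimage (Nat.cast_injective.injOn)
  obtain ⟨t, ht⟩ := h2.exists_notMem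
  refine ⟨fun l => (t : ℤ) ^ (l : ℕ), fun σ hσ h => ?_⟩
  by_contra hne
  apply ht
  have h3 : (t : ℝ) ∈ {t : ℝ | (pol (σ - a)).IsRoot t} := by
    change (pol (σ - a)).eval (t : ℝ) = 0
    rw [pol_eval]
    have h4 : ∑ l : Fin n, (σ - a) l * (t : ℝ) ^ (l : ℕ) =
        ∑ l : Fin n, (((t : ℤ) ^ (l : ℕ) : ℤ) : ℝ) * σ l - ∑ l : Fin n, (((t : ℤ) ^ (l : ℕ) : ℤ) : ℝ) * a l := by
      rw [← Finset.sum_sub_distrib]
      refine Finset.sum_congr rfl fun l _ => ?_
      rw [Pi.sub_apply]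
      push_cast
      ring
    rw [h4]
    exact sub_eq_zero.2 h
  exact Set.mem_biUnion (s := S \ {a}) (t := fun σ => {t : ℝ | (pol (σ - a)).IsRoot t}) ⟨hσ, hne⟩ h3

end Pool.Agent.Q111.EG
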